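import Pool.Agent.H17.TV.Width

/-!
# Prescribed linear and partial orders

The `n`-th relation of a structure, read at the tuple with first entry `x` and all other entries `y`
(so for a binary symbol this is just `R_n(x, y)`).
-/

set_option autoImplicit false

namespace Pool.H17.TL

open Pool.H17.TV

/-- `x R_n y` -/
def Rel {a : ℕ → ℕ} (M : Str a) (n x y : ℕ) : Prop := M n (fun i => if i.val = 0 then x else y) = true

/-- the `n`-th relation of the structure is a strict partial order -/
def PartialOrd {a : ℕ → ℕ} (M : Str a) (n : ℕ) : Prop :=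
  (∀ x, ¬ Rel M n x x) ∧ ∀ x y z, Rel M n x y → Rel M n y z → Rel M n x z

/-- the `n`-th relation of the structure is a strict linear order -/
def LinearOrd {a : ℕ → ℕ} (M : Str a) (n : ℕ) : Prop :=
  PartialOrd M n ∧ ∀ x y, x ≠ y → Rel M n x y ∨ Rel M n y x

end Pool.H17.TL
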