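import Pool.Agent.H17.TL.Core
import Pool.Agent.H17.TL.OrdDefs

/-!
# Transfer to structures
-/

set_option autoImplicit false

namespace Pool.H17.TL

open Pool.H17.TV

theorem po_phi {a : ℕ → ℕ} (M : Str a) (n : ℕ) : PartialOrd M n ↔ IsPO (phi M) n := by
  unfold PartialOrd IsPO Rel phi
  simp only [Bool.not_eq_true]

theorem lo_phi {a : ℕ → ℕ} (M : Str a) (n : ℕ) : LinearOrd M n ↔ IsLO (phi M) n := by
  unfold LinearOrd IsLO
  rw [po_phi]
  rfl

theorem trans_ar3_rel {a : ℕ → ℕ} (M : Str a) (n0 : ℕ) (h : 3 ≤ a n0) (s : ℕ → Bool)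
    (n x y : ℕ) : Rel (ar3 M n0 h s) n x y ↔ Rel M n x y := by
  have key : ar3 M n0 h s n (fun i => if i.val = 0 then x else y) =
      M n (fun i => if i.val = 0 then x else y) := by
    unfold ar3
    by_cases hn : n = n0
    · rw [dif_pos hn, if_pos]
      refine ⟨x, y, fun i => ?_⟩
      by_cases hi : i.val = 0
      · left
        exact if_pos hi
      · right
        exact if_neg hi
    · rw [dif_neg hn]
  unfold Rel
  rw [key]

theorem trans_ar3_po {a : ℕ → ℕ} (M : Str a) (n0 : ℕ) (h : 3 ≤ a n0) (s : ℕ → Bool)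
    (n : ℕ) : PartialOrd (ar3 M n0 h s) n ↔ PartialOrd M n := by
  unfold PartialOrd
  simp only [trans_ar3_rel]

theorem trans_ar3_lo {a : ℕ → ℕ} (M : Str a) (n0 : ℕ) (h : 3 ≤ a n0) (s : ℕ → Bool)
    (n : ℕ) : LinearOrd (ar3 M n0 h s) n ↔ LinearOrd M n := by
  unfold LinearOrd
  simp only [trans_ar3_po, trans_ar3_rel]

/-- arity at least three: `ar3` does not change the relations of arity two (at tuples with at most two
different entries nothing changes) -/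
theorem dich_ge3' {a : ℕ → ℕ} (n0 : ℕ) (h : 3 ≤ a n0) (φ : Fml a) (hφ : VarsLt 2 φ) (L P : Set ℕ) :
    Dich {M : Str a | M ∈ Mod φ ∧ (∀ n ∈ L, LinearOrd M n) ∧ ∀ n ∈ P, PartialOrd M n} := by
  by_cases hne : {M : Str a | M ∈ Mod φ ∧ (∀ n ∈ L, LinearOrd M n) ∧
      ∀ n ∈ P, PartialOrd M n}.Nonempty
  · obtain ⟨M, hM, hML, hMP⟩ := hne
    refine dich_of_family _ (ar3 M n0 h) (ar3_cont M n0 h) ?_
      (fun s s' hσ => ar3_inj M n0 h s s' hσ)
    intro s
    exact ⟨fun v => (ar3_sat M n0 h s φ hφ v).2 (hM v),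
      fun n hn => (trans_ar3_lo M n0 h s n).2 (hML n hn),
      fun n hn => (trans_ar3_po M n0 h s n).2 (hMP n hn)⟩
  · left
    exact ⟨∅, Set.countable_empty, fun c hc => absurd ⟨c, hc⟩ hne⟩

theorem trans_omod {a : ℕ → ℕ} (har : ∀ n, a n ≤ 2) (φ : Fml a) (hφ : VarsLt 2 φ)
    (L P : Set ℕ) (c : Col ℕ) : c ∈ OMod (trc φ) L P ↔
      ∃ M ∈ {M : Str a | M ∈ Mod φ ∧ (∀ n ∈ L, LinearOrd M n) ∧ ∀ n ∈ P, PartialOrd M n},
        phi M = c := by
  constructor
  · rintro ⟨h1, h2, h3⟩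
    obtain ⟨M, hM, rfl⟩ := (trc_mod har φ hφ c).1 h1
    exact ⟨M, ⟨hM, fun n hn => (lo_phi M n).2 (h2 n hn), fun n hn => (po_phi M n).2 (h3 n hn)⟩,
      rfl⟩
  · rintro ⟨M, ⟨hM, h2, h3⟩, rfl⟩
    exact ⟨(trc_mod har φ hφ _).2 ⟨M, hM, rfl⟩, fun n hn => (lo_phi M n).1 (h2 n hn),
      fun n hn => (po_phi M n).1 (h3 n hn)⟩

/-- copy the proof of `dich_le2` (in `TV/Transfer.lean`) with `core_ord (trc φ) L P hL` in place of
`core (trc φ)`, using `po_phi`, `lo_phi` -/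
theorem dich_le2' {a : ℕ → ℕ} (har : ∀ n, a n ≤ 2) (φ : Fml a) (hφ : VarsLt 2 φ) (L P : Set ℕ)
    (hL : L.Nonempty) :
    Dich {M : Str a | M ∈ Mod φ ∧ (∀ n ∈ L, LinearOrd M n) ∧ ∀ n ∈ P, PartialOrd M n} := by
  rcases core_ord (trc φ) L P hL with ⟨C, hC, h⟩ | ⟨f, hf, hB, h⟩
  · left
    refine ⟨psi a '' C, hC.image _, fun M hM => ?_⟩
    obtain ⟨d, hd, σ, hσ⟩ := h (phi M) ((trans_omod har φ hφ L P _).2 ⟨M, hM, rfl⟩)
    refine ⟨psi a d, ⟨d, hd, rfl⟩, σ, ?_⟩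
    let N : Str a := fun n t => M n (fun i => σ.symm (t i))
    have hN : phi N = d := by
      funext x y
      have h1 := hσ (σ.symm x) (σ.symm y)
      rw [σ.apply_symm_apply, σ.apply_symm_apply] at h1
      rw [h1]
      funext n
      change M n _ = M n _
      congr 1
      funext i
      by_cases hi : i.val = 0 <;> simp [hi]
    rw [← hN, psi_phi har]
    intro n t
    change M n _ = M n t
    congr 1
    funext i
    exact σ.symm_apply_apply _
  · refine dich_of_family _ (fun s => psi a (f s)) ((psi_cont a).comp hf) ?_ ?_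
    · intro s
      obtain ⟨M, hM, hMs⟩ := (trans_omod har φ hφ L P _).1 (hB s)
      rw [← hMs, psi_phi har]
      exact hM
    · rintro s s' ⟨σ, hσ⟩
      apply h s s'
      refine ⟨σ, ?_⟩
      have hp : ∀ s, phi (psi a (f s)) = f s := by
        intro s
        obtain ⟨M, -, hMs⟩ := (trans_omod har φ hφ L P _).1 (hB s)
        exact phi_psi har _ ⟨M, hMs⟩
      have h1 := (phi_iso har (psi a (f s)) (psi a (f s')) σ).2 hσ
      rw [hp, hp] at h1
      exact h1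

theorem two_ord {a : ℕ → ℕ} (φ : Fml a) (h : Width 2 φ) (L P : Set ℕ) (hLP : L.Nonempty ∨ P = ∅) :
    Dich {M : Str a | M ∈ Mod φ ∧ (∀ n ∈ L, LinearOrd M n) ∧ ∀ n ∈ P, PartialOrd M n} := by
  obtain ⟨φ', h1, h2⟩ := width_mod φ h
  rw [← h2]
  by_cases hL : L.Nonempty
  · by_cases har : ∀ n, a n ≤ 2
    · exact dich_le2' har φ' h1 L P hL
    · push Not at har
      obtain ⟨n, hn⟩ := har
      exact dich_ge3' n hn φ' h1 L P
  · have hP : P = ∅ := hLP.resolve_left hL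
    rw [Set.not_nonempty_iff_eq_empty] at hL
    have : {M : Str a | M ∈ Mod φ' ∧ (∀ n ∈ L, LinearOrd M n) ∧ ∀ n ∈ P, PartialOrd M n} =
        Mod φ' := by
      ext M
      simp [hL, hP]
    rw [this]
    exact two_var φ' h1

end Pool.H17.TL
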