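import Pool.Agent.H17.TL.Defs

/-!
# Linear orders with prescribed lengths of maximal runs
-/

set_option autoImplicit false

namespace Pool.H17.TL

open Pool.H17.TV

/-- the elements of the order: `(m, r)` with `r < 0`, or `r = 0, ..., m` if `m ∈ D` -/
def ChIn (D : Set ℕ) (m : ℕ) (r : ℚ) : Prop := r < 0 ∨ (m ∈ D ∧ ∃ j : ℕ, j ≤ m ∧ r = j)

/-- the order -/
abbrev ChLo (D : Set ℕ) : Type := {p : ℕ ×ₗ ℚ // ChIn D (ofLex p).1 (ofLex p).2}

/-- the elements -/
def chMk (D : Set ℕ) (m : ℕ) (r : ℚ) (h : ChIn D m r) : ChLo D := ⟨toLex (m, r), h⟩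

theorem ch_exists {D : Set ℕ} (p : ChLo D) : ∃ m r, ∃ h : ChIn D m r, p = chMk D m r h :=
  ⟨(ofLex p.1).1, (ofLex p.1).2, p.2, rfl⟩

theorem ch_lt {D : Set ℕ} {m m' : ℕ} {r r' : ℚ} {h : ChIn D m r} {h' : ChIn D m' r'} :
    chMk D m r h < chMk D m' r' h' ↔ m < m' ∨ (m = m' ∧ r < r') := by
  show toLex (m, r) < toLex (m', r') ↔ _
  exact Prod.Lex.toLex_lt_toLex

theorem ch_eq {D : Set ℕ} {m m' : ℕ} {r r' : ℚ} {h : ChIn D m r} {h' : ChIn D m' r'} :
    chMk D m r h = chMk D m' r' h' ↔ m = m' ∧ r = r' := by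
  constructor
  · intro he
    have h1 : toLex (m, r) = toLex (m', r') := congrArg Subtype.val he
    have h2 : (m, r) = (m', r') := h1
    exact Prod.mk_inj.1 h2
  · rintro ⟨rfl, rfl⟩
    rfl

theorem ch_nat {D : Set ℕ} {m j : ℕ} (hm : m ∈ D) (hj : j ≤ m) : ChIn D m (j : ℚ) :=
  Or.inr ⟨hm, j, hj, rfl⟩

theorem ch_cov {D : Set ℕ} {m j : ℕ} (hm : m ∈ D) (hj : j + 1 ≤ m) :
    chMk D m (j : ℚ) (ch_nat hm (by omega)) ⋖ chMk D m ((j + 1 : ℕ) : ℚ) (ch_nat hm hj) := by
  constructor
  · rw [ch_lt]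
    right
    refine ⟨rfl, ?_⟩
    exact_mod_cast Nat.lt_succ_self j
  · intro c hc1 hc2
    obtain ⟨k, r, h, rfl⟩ := ch_exists c
    rw [ch_lt] at hc1 hc2
    have hk : m = k ∧ (j : ℚ) < r ∧ r < ((j + 1 : ℕ) : ℚ) := by
      rcases hc1 with h1 | ⟨h1, h1'⟩
      · rcases hc2 with h2 | ⟨h2, h2'⟩
        · omega
        · omega
      · rcases hc2 with h2 | ⟨h2, h2'⟩
        · omega
        · exact ⟨h1, h1', h2'⟩
    obtain ⟨-, h1, h2⟩ := hk
    rcases h with h | ⟨-, i, -, rfl⟩
    · have : (0 : ℚ) ≤ j := Nat.cast_nonneg j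
      linarith
    · have h3 : j < i := by exact_mod_cast h1
      have h4 : i < j + 1 := by exact_mod_cast h2
      omega

theorem ch_of_cov {D : Set ℕ} {p q : ChLo D} (h : p ⋖ q) :
    ∃ (m j : ℕ) (hm : m ∈ D) (hj : j + 1 ≤ m),
      p = chMk D m (j : ℚ) (ch_nat hm (by omega)) ∧
      q = chMk D m ((j + 1 : ℕ) : ℚ) (ch_nat hm hj) := by
  obtain ⟨m, r, hp, rfl⟩ := ch_exists p
  obtain ⟨m', s, hq, rfl⟩ := ch_exists q
  obtain ⟨hlt, hno⟩ := h
  rw [ch_lt] at hlt
  have hp2 := hp
  rcases hp2 with hr | ⟨hm, j, hj, rfl⟩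
  · exfalso
    rcases hlt with h1 | ⟨h1, h2⟩
    · have hin : ChIn D m (r / 2) := Or.inl (by linarith)
      refine hno (c := chMk D m (r / 2) hin) ?_ ?_
      · rw [ch_lt]
        right
        exact ⟨rfl, by linarith⟩
      · rw [ch_lt]
        left
        exact h1
    · subst h1
      rcases lt_or_ge s 0 with h3 | h3
      · have hin : ChIn D m ((r + s) / 2) := Or.inl (by linarith)
        refine hno (c := chMk D m ((r + s) / 2) hin) ?_ ?_
        · rw [ch_lt]
          right
          exact ⟨rfl, by linarith⟩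
        · rw [ch_lt]
          right
          exact ⟨rfl, by linarith⟩
      · have hin : ChIn D m (r / 2) := Or.inl (by linarith)
        refine hno (c := chMk D m (r / 2) hin) ?_ ?_
        · rw [ch_lt]
          right
          exact ⟨rfl, by linarith⟩
        · rw [ch_lt]
          right
          exact ⟨rfl, by linarith⟩
  · rcases hlt with h1 | ⟨h1, h2⟩
    · exfalso
      have hin : ChIn D m' (min s 0 - 1) := by
        left
        have := min_le_right s 0
        linarith
      refine hno (c := chMk D m' (min s 0 - 1) hin) ?_ ?_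
      · rw [ch_lt]
        left
        exact h1
      · rw [ch_lt]
        right
        refine ⟨rfl, ?_⟩
        have := min_le_left s 0
        linarith
    · subst h1
      have hq2 := hq
      rcases hq2 with h3 | ⟨-, i, hi, rfl⟩
      · exfalso
        have : (0 : ℚ) ≤ j := Nat.cast_nonneg j
        linarith
      · have h4 : j < i := by exact_mod_cast h2
        rcases Nat.lt_or_ge (j + 1) i with h5 | h5
        · exfalso
          refine hno (c := chMk D m ((j + 1 : ℕ) : ℚ) (ch_nat hm (by omega))) ?_ ?_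
          · rw [ch_lt]
            right
            exact ⟨rfl, by exact_mod_cast Nat.lt_succ_self j⟩
          · rw [ch_lt]
            right
            exact ⟨rfl, by exact_mod_cast h5⟩
        · have h6 : i = j + 1 := by omega
          subst h6
          exact ⟨m, j, hm, hi, rfl, rfl⟩

theorem ch_run {D : Set ℕ} {n : ℕ} (hn : 1 ≤ n) : RunO (ChLo D) n ↔ n ∈ D := by
  constructor
  · rintro ⟨f, hf, h0, hl⟩
    have hn0 : 0 < n := hn
    have h1 := hf ⟨0, hn0⟩
    obtain ⟨m, j, hm, hj, hp, hq⟩ := ch_of_cov h1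
    have hz : (⟨0, hn0⟩ : Fin n).castSucc = 0 := rfl
    rw [hz] at hp
    have hj0 : j = 0 := by
      rcases j with _ | j
      · rfl
      · exfalso
        apply h0 (chMk D m (j : ℚ) (ch_nat hm (by omega)))
        rw [hp]
        exact ch_cov hm (by omega)
    subst hj0
    have key : ∀ i : ℕ, ∀ hi : i < n + 1, ∃ hin : ChIn D m (i : ℚ),
        f ⟨i, hi⟩ = chMk D m (i : ℚ) hin ∧ i ≤ m := by
      intro i
      induction i with
      | zero =>
        intro hi
        exact ⟨ch_nat hm (by omega), hp, by omega⟩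
      | succ i ih =>
        intro hi
        obtain ⟨hin, he, him⟩ := ih (by omega)
        have h2 := hf ⟨i, by omega⟩
        obtain ⟨m', j', hm', hj', hp', hq'⟩ := ch_of_cov h2
        have e1 : (⟨i, by omega⟩ : Fin n).castSucc = ⟨i, by omega⟩ := rfl
        have e2 : (⟨i, by omega⟩ : Fin n).succ = ⟨i + 1, hi⟩ := rfl
        rw [e1, he, ch_eq] at hp'
        rw [e2] at hq'
        obtain ⟨rfl, h4⟩ := hp'
        have h5 : i = j' := by exact_mod_cast h4
        subst h5
        exact ⟨ch_nat hm' hj', hq', hj'⟩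
    obtain ⟨hin, he, him⟩ := key n (by omega)
    rcases Nat.lt_or_ge n m with h3 | h3
    · exfalso
      apply hl (chMk D m ((n + 1 : ℕ) : ℚ) (ch_nat hm (by omega)))
      have e3 : Fin.last n = ⟨n, by omega⟩ := rfl
      rw [e3, he]
      exact ch_cov hm (by omega)
    · have : n = m := by omega
      rw [this]
      exact hm
  · intro hD
    refine ⟨fun i => chMk D n ((i : ℕ) : ℚ) (ch_nat hD (by omega)), fun i => ?_, fun z hz => ?_,
      fun z hz => ?_⟩
    · exact ch_cov (D := D) (m := n) (j := i) hD (by omega)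
    · obtain ⟨m, j, hm, hj, hp, hq⟩ := ch_of_cov hz
      rw [ch_eq] at hq
      have h1 := hq.2
      have h2 : ((0 : Fin (n + 1)) : ℕ) = j + 1 := by exact_mod_cast h1
      rw [Fin.val_zero] at h2
      omega
    · obtain ⟨m, j, hm, hj, hp, hq⟩ := ch_of_cov hz
      rw [ch_eq] at hp
      have h1 := hp.2
      have h2 : ((Fin.last n : Fin (n + 1)) : ℕ) = j := by exact_mod_cast h1
      rw [Fin.val_last] at h2
      have h3 := hp.1
      omega

/-- PROOF. `Lo = Σₗ n : ℕ, (ℚ ⊕ₗ {j : Fin (n + 1) // n ∈ D})` (lexicographic sum). It has no least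
element (no least element in the first copy of `ℚ`) and no greatest element. The covering pairs are
exactly the pairs `(n, inr j), (n, inr (j + 1))`, `n ∈ D`: an element of a copy of `ℚ` has no
immediate predecessor or successor, and between `(n, inr j)` and an element with larger first
coordinate there are elements of the copy of `ℚ` with first coordinate `n + 1`. A maximal run with
`n + 1 ≥ 2` elements is therefore a whole block `(n, inr 0), ..., (n, inr n)` with `n ∈ D`.
(Any other order with these properties is fine, for instance a subset of a lexicographic product.) -/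
theorem chain_exists (D : Set ℕ) : ∃ (Lo : Type) (_ : Countable Lo) (_ : Nonempty Lo)
    (_ : LinearOrder Lo), NoMinOrder Lo ∧ NoMaxOrder Lo ∧ ∀ n, 1 ≤ n → (RunO Lo n ↔ n ∈ D) := by
  have hc : Countable (ℕ ×ₗ ℚ) := inferInstanceAs (Countable (ℕ × ℚ))
  have hneg : ChIn D 0 (-1 : ℚ) := Or.inl (by norm_num)
  refine ⟨ChLo D, inferInstance, ⟨chMk D 0 (-1) hneg⟩, inferInstance, ⟨fun p => ?_⟩,
    ⟨fun p => ?_⟩, fun n hn => ch_run hn⟩
  · obtain ⟨m, r, hp, rfl⟩ := ch_exists p
    have hin : ChIn D m (min r 0 - 1) := by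
      left
      have := min_le_right r 0
      linarith
    refine ⟨chMk D m (min r 0 - 1) hin, ?_⟩
    rw [ch_lt]
    right
    refine ⟨rfl, ?_⟩
    have := min_le_left r 0
    linarith
  · obtain ⟨m, r, hp, rfl⟩ := ch_exists p
    have hin : ChIn D (m + 1) (-1 : ℚ) := Or.inl (by norm_num)
    refine ⟨chMk D (m + 1) (-1) hin, ?_⟩
    rw [ch_lt]
    left
    omega

end Pool.H17.TL
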