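import Pool.Agent.H17.TL.Defs

/-!
# Invariance and measurability
-/

set_option autoImplicit false

namespace Pool.H17.TL

open Pool.H17.TV

theorem tlmeas_inv {β γ : Type} {c : Col β} {d : Col γ} (σ : β ≃ γ)
    (h : ∀ x y, d (σ x) (σ y) = c x y) (x y : γ) : c (σ.symm x) (σ.symm y) = d x y := by
  rw [← h, Equiv.apply_symm_apply, Equiv.apply_symm_apply]

theorem tlmeas_pc {β γ : Type} {c : Col β} {d : Col γ} (σ : β ≃ γ)
    (h : ∀ x y, d (σ x) (σ y) = c x y) (x y : β) : pc d (σ x) (σ y) = pc c x y := by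
  simp only [pc, h]

theorem tlmeas_suc {β γ : Type} (φ : G) (l : ℕ) {c : Col β} {d : Col γ} (σ : β ≃ γ)
    (h : ∀ x y, d (σ x) (σ y) = c x y) {x y : β} (hs : Suc φ l c x y) :
    Suc φ l d (σ x) (σ y) := by
  obtain ⟨h1, h2, h3, h4⟩ := hs
  refine ⟨fun e => h1 (σ.injective e), ?_, ?_, ?_⟩
  · rw [tp_iso φ σ h, tp_iso φ σ h, h2]
  · rw [h]
    exact h3
  · intro z hzx hzy
    obtain ⟨w, rfl⟩ := σ.surjective z
    rw [tlmeas_pc σ h, tlmeas_pc σ h]
    exact h4 w (fun e => hzx (by rw [e])) (fun e => hzy (by rw [e]))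

theorem tlmeas_suc_iff {β γ : Type} (φ : G) (l : ℕ) {c : Col β} {d : Col γ} (σ : β ≃ γ)
    (h : ∀ x y, d (σ x) (σ y) = c x y) {x y : β} :
    Suc φ l d (σ x) (σ y) ↔ Suc φ l c x y := by
  refine ⟨fun hs => ?_, tlmeas_suc φ l σ h⟩
  have := tlmeas_suc φ l σ.symm (tlmeas_inv σ h) hs
  rwa [Equiv.symm_apply_apply, Equiv.symm_apply_apply] at this

theorem tlmeas_run {β γ : Type} (φ : G) (l : ℕ) {c : Col β} {d : Col γ} (σ : β ≃ γ)
    (h : ∀ x y, d (σ x) (σ y) = c x y) {k : β} {n : ℕ} (hr : Run φ l c k n) :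
    Run φ l d (σ k) n := by
  obtain ⟨f, h1, h2, h3, h4⟩ := hr
  refine ⟨fun i => σ (f i), ?_, ?_, ?_, ?_⟩
  · rw [tp_iso φ σ h, tp_iso φ σ h, h1]
  · intro i
    exact tlmeas_suc φ l σ h (h2 i)
  · intro z hz
    obtain ⟨w, rfl⟩ := σ.surjective z
    exact h3 w ((tlmeas_suc_iff φ l σ h).1 hz)
  · intro z hz
    obtain ⟨w, rfl⟩ := σ.surjective z
    exact h4 w ((tlmeas_suc_iff φ l σ h).1 hz)

theorem run_iso {β γ : Type} (φ : G) (l : ℕ) (c : Col β) (d : Col γ) (σ : β ≃ γ)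
    (h : ∀ x y, d (σ x) (σ y) = c x y) (k : β) (n : ℕ) :
    Run φ l d (σ k) n ↔ Run φ l c k n := by
  refine ⟨fun hr => ?_, tlmeas_run φ l σ h⟩
  have := tlmeas_run φ l σ.symm (tlmeas_inv σ h) hr
  rwa [Equiv.symm_apply_apply] at this

theorem tlmeas_po {β γ : Type} {c : Col β} {d : Col γ} (σ : β ≃ γ)
    (h : ∀ x y, d (σ x) (σ y) = c x y) {n : ℕ} (hp : IsPO d n) : IsPO c n := by
  refine ⟨fun x => ?_, fun x y z h1 h2 => ?_⟩
  · rw [← h]
    exact hp.1 _
  · rw [← h] at h1 h2 ⊢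
    exact hp.2 _ _ _ h1 h2

theorem po_iso {β γ : Type} (c : Col β) (d : Col γ) (σ : β ≃ γ)
    (h : ∀ x y, d (σ x) (σ y) = c x y) (n : ℕ) : IsPO d n ↔ IsPO c n :=
  ⟨tlmeas_po σ h, tlmeas_po σ.symm (tlmeas_inv σ h)⟩

theorem tlmeas_lo {β γ : Type} {c : Col β} {d : Col γ} (σ : β ≃ γ)
    (h : ∀ x y, d (σ x) (σ y) = c x y) {n : ℕ} (hp : IsLO d n) : IsLO c n := by
  refine ⟨tlmeas_po σ h hp.1, fun x y hxy => ?_⟩
  rw [← h x y, ← h y x]
  exact hp.2 _ _ (fun e => hxy (σ.injective e))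

theorem lo_iso {β γ : Type} (c : Col β) (d : Col γ) (σ : β ≃ γ)
    (h : ∀ x y, d (σ x) (σ y) = c x y) (n : ℕ) : IsLO d n ↔ IsLO c n :=
  ⟨tlmeas_lo σ h, tlmeas_lo σ.symm (tlmeas_inv σ h)⟩

theorem tlmeas_all {ι : Type} [Countable ι] {p : ι → Col ℕ → Prop}
    (h : ∀ i, MeasurableSet {c : Col ℕ | p i c}) : MeasurableSet {c : Col ℕ | ∀ i, p i c} := by
  rw [Set.ofPred_forall]
  exact MeasurableSet.iInter h

theorem tlmeas_ex {ι : Type} [Countable ι] {p : ι → Col ℕ → Prop}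
    (h : ∀ i, MeasurableSet {c : Col ℕ | p i c}) : MeasurableSet {c : Col ℕ | ∃ i, p i c} := by
  rw [Set.ofPred_exists]
  exact MeasurableSet.iUnion h

theorem tlmeas_and {p q : Col ℕ → Prop} (hp : MeasurableSet {c | p c})
    (hq : MeasurableSet {c | q c}) : MeasurableSet {c | p c ∧ q c} := hp.inter hq

theorem tlmeas_or {p q : Col ℕ → Prop} (hp : MeasurableSet {c | p c})
    (hq : MeasurableSet {c | q c}) : MeasurableSet {c | p c ∨ q c} := hp.union hq

theorem tlmeas_not {p : Col ℕ → Prop} (hp : MeasurableSet {c | p c}) :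
    MeasurableSet {c | ¬ p c} := hp.compl

theorem tlmeas_sucm (φ : G) (l x y : ℕ) : MeasurableSet {c : Col ℕ | Suc φ l c x y} := by
  unfold Suc
  exact tlmeas_and (MeasurableSet.const _) (tlmeas_and (meas_tp_eqA φ x y)
    (tlmeas_and (meas_colA x y l) (tlmeas_all fun z =>
      meas_imp (MeasurableSet.const _) (meas_imp (MeasurableSet.const _) (meas_pc_eq _ _ _ _)))))

/-- countable unions and intersections of the sets in `meas_tp_eqA`, `meas_colA`, `meas_pc_eq`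
(`TV/FinA.lean`) -/
theorem run_meas (φ : G) (l k n : ℕ) : MeasurableSet {c : Col ℕ | Run φ l c k n} := by
  unfold Run
  exact tlmeas_ex fun f => tlmeas_and (meas_tp_eqA φ _ _) (tlmeas_and
    (tlmeas_all fun i => tlmeas_sucm φ l _ _) (tlmeas_and
    (tlmeas_all fun z => tlmeas_not (tlmeas_sucm φ l z _))
    (tlmeas_all fun z => tlmeas_not (tlmeas_sucm φ l _ z))))

theorem tlmeas_pom (n : ℕ) : MeasurableSet {c : Col ℕ | IsPO c n} := by
  unfold IsPO
  refine tlmeas_and (tlmeas_all fun x => ?_) (tlmeas_all fun x => tlmeas_all fun y =>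
    tlmeas_all fun z => meas_imp (meas_colA x y n) (meas_imp (meas_colA y z n)
      (meas_colA x z n)))
  have : {c : Col ℕ | c x x n = false} = {c : Col ℕ | c x x n = true}ᶜ := by
    ext c
    simp
  rw [this]
  exact (meas_colA x x n).compl

theorem tlmeas_lom (n : ℕ) : MeasurableSet {c : Col ℕ | IsLO c n} := by
  unfold IsLO
  exact tlmeas_and (tlmeas_pom n) (tlmeas_all fun x => tlmeas_all fun y =>
    meas_imp (MeasurableSet.const _) (tlmeas_or (meas_colA x y n) (meas_colA y x n)))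

theorem omod_meas (φ : G) (L P : Set ℕ) : MeasurableSet (OMod φ L P) := by
  unfold OMod
  exact tlmeas_and (meas_mod φ) (tlmeas_and
    (tlmeas_all fun n => meas_imp (MeasurableSet.const _) (tlmeas_lom n))
    (tlmeas_all fun n => meas_imp (MeasurableSet.const _) (tlmeas_pom n)))

end Pool.H17.TL
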