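import Pool.Agent.H17.TL.Infl

/-!
# Successive elements and runs in the inflation
-/

set_option autoImplicit false

namespace Pool.H17.TL

open Pool.H17.TV

theorem runl_pc_lt (φ : G) (c : Col ℕ) (x y : ℕ) (Lo : Type) [LinearOrder Lo] (l0 : Lo)
    (p q : InfT φ c (tp φ c x) Lo l0) (h : p.1.1 = q.1.1) (hlt : p.1.2 < q.1.2) :
    pc (infl φ c (tp φ c x) Lo l0 (c x y) (c y x)) p q = (c x y, c y x) := by
  unfold pc
  rw [infl_eq, infl_eq, if_pos ⟨h, hlt.ne⟩, if_pos hlt, if_pos ⟨h.symm, hlt.ne'⟩,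
    if_neg (not_lt.2 hlt.le)]

theorem runl_pc_gt (φ : G) (c : Col ℕ) (x y : ℕ) (Lo : Type) [LinearOrder Lo] (l0 : Lo)
    (p q : InfT φ c (tp φ c x) Lo l0) (h : p.1.1 = q.1.1) (hlt : q.1.2 < p.1.2) :
    pc (infl φ c (tp φ c x) Lo l0 (c x y) (c y x)) p q = (c y x, c x y) := by
  unfold pc
  rw [infl_eq, infl_eq, if_pos ⟨h, hlt.ne'⟩, if_neg (not_lt.2 hlt.le), if_pos ⟨h.symm, hlt.ne⟩,
    if_pos hlt]

theorem runl_pc_ne (φ : G) (c : Col ℕ) (x y : ℕ) (Lo : Type) [LinearOrder Lo] (l0 : Lo)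
    (p q : InfT φ c (tp φ c x) Lo l0) (h : p.1.1 ≠ q.1.1) :
    pc (infl φ c (tp φ c x) Lo l0 (c x y) (c y x)) p q = (c p.1.1 q.1.1, c q.1.1 p.1.1) := by
  unfold pc
  rw [infl_eq, infl_eq, if_neg (fun h' => h h'.1), if_neg (fun h' => h h'.1.symm)]

/-- PROOF. By `lift_tp` the type of `p` is the type of `p.1.1`. Let `p, q` be of type
`t = tp φ c x`. If `p.1.1 ≠ q.1.1` they are not successive: there are `z', z''` in the copy of
`p`, below and above `p` (`NoMinOrder`, `NoMaxOrder`), and `pc z' p = (c x y, c y x)`,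
`pc z'' p = (c y x, c x y)` are different (at `l`), while `pc z' q = pc z'' q`. If `p.1.1 = q.1.1`
then `infl p q l = true` iff `p.1.2 < q.1.2` (`c x y l = true`, `c y x l = false`), and the last
condition of `Suc` says that no element of `Lo` lies strictly between (elements outside the copy do
not distinguish `p` and `q`; elements of the copy below or above both do not either). -/
theorem suc_infl (φ : G) (c : Col ℕ) (l x y : ℕ) (hxy : x ≠ y) (ht : tp φ c x = tp φ c y)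
    (hl : c x y l = true) (hl' : c y x l = false) (Lo : Type) [LinearOrder Lo] [NoMinOrder Lo]
    [NoMaxOrder Lo] (l0 : Lo) (p q : InfT φ c (tp φ c x) Lo l0) (hp : tp φ c p.1.1 = tp φ c x)
    (hq : tp φ c q.1.1 = tp φ c x) :
    Suc φ l (infl φ c (tp φ c x) Lo l0 (c x y) (c y x)) p q ↔
      p.1.1 = q.1.1 ∧ p.1.2 ⋖ q.1.2 := by
  have hne : c x y ≠ c y x := by
    intro h
    have h2 := congrFun h l
    rw [hl, hl'] at h2
    cases h2
  constructor
  · rintro ⟨hpq, -, hc, hz⟩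
    have h11 : p.1.1 = q.1.1 := by
      by_contra h11
      obtain ⟨a, ha⟩ := exists_lt p.1.2
      obtain ⟨b, hb⟩ := exists_gt p.1.2
      have h1 := hz ⟨(p.1.1, a), Or.inl hp⟩
        (fun h => ha.ne (congrArg (fun w : InfT φ c (tp φ c x) Lo l0 => w.1.2) h))
        (fun h => h11 (congrArg (fun w : InfT φ c (tp φ c x) Lo l0 => w.1.1) h : _ = _))
      have h2 := hz ⟨(p.1.1, b), Or.inl hp⟩
        (fun h => hb.ne' (congrArg (fun w : InfT φ c (tp φ c x) Lo l0 => w.1.2) h))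
        (fun h => h11 (congrArg (fun w : InfT φ c (tp φ c x) Lo l0 => w.1.1) h : _ = _))
      rw [runl_pc_lt φ c x y Lo l0 ⟨(p.1.1, a), Or.inl hp⟩ p rfl ha,
        runl_pc_ne φ c x y Lo l0 ⟨(p.1.1, a), Or.inl hp⟩ q h11] at h1
      rw [runl_pc_gt φ c x y Lo l0 ⟨(p.1.1, b), Or.inl hp⟩ p rfl hb,
        runl_pc_ne φ c x y Lo l0 ⟨(p.1.1, b), Or.inl hp⟩ q h11] at h2
      exact hne (congrArg Prod.fst (h1.trans h2.symm))
    refine ⟨h11, ?_⟩
    have h12 : p.1.2 ≠ q.1.2 := fun h => hpq (Subtype.ext (Prod.ext h11 h))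
    have hlt : p.1.2 < q.1.2 := by
      by_contra hlt
      have hgt : q.1.2 < p.1.2 := lt_of_le_of_ne (not_lt.1 hlt) h12.symm
      have h3 := congrArg Prod.fst (runl_pc_gt φ c x y Lo l0 p q h11 hgt)
      have h4 : infl φ c (tp φ c x) Lo l0 (c x y) (c y x) p q l = c y x l := congrFun h3 l
      rw [hc, hl'] at h4
      cases h4
    refine ⟨hlt, ?_⟩
    intro z hz1 hz2
    have h1 := hz ⟨(p.1.1, z), Or.inl hp⟩
      (fun h => hz1.ne' (congrArg (fun w : InfT φ c (tp φ c x) Lo l0 => w.1.2) h))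
      (fun h => hz2.ne (congrArg (fun w : InfT φ c (tp φ c x) Lo l0 => w.1.2) h))
    rw [runl_pc_gt φ c x y Lo l0 ⟨(p.1.1, z), Or.inl hp⟩ p rfl hz1,
      runl_pc_lt φ c x y Lo l0 ⟨(p.1.1, z), Or.inl hp⟩ q h11 hz2] at h1
    exact hne (congrArg Prod.fst h1).symm
  · rintro ⟨h11, hcov⟩
    have hL := infl_lift φ c x y hxy ht Lo l0
    refine ⟨fun h => hcov.lt.ne (congrArg (fun w : InfT φ c (tp φ c x) Lo l0 => w.1.2) h), ?_, ?_,
      ?_⟩
    · rw [lift_tp hL, lift_tp hL, hp, hq]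
    · have h3 := congrArg Prod.fst (runl_pc_lt φ c x y Lo l0 p q h11 hcov.lt)
      have h4 : infl φ c (tp φ c x) Lo l0 (c x y) (c y x) p q l = c x y l := congrFun h3 l
      rw [h4, hl]
    · intro z hzp hzq
      by_cases hz1 : z.1.1 = p.1.1
      · have hz2 : z.1.2 ≠ p.1.2 := fun h => hzp (Subtype.ext (Prod.ext hz1 h))
        have hz3 : z.1.2 ≠ q.1.2 := fun h => hzq (Subtype.ext (Prod.ext (hz1.trans h11) h))
        rcases lt_or_gt_of_ne hz2 with h | h
        · rw [runl_pc_lt φ c x y Lo l0 z p hz1 h,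
            runl_pc_lt φ c x y Lo l0 z q (hz1.trans h11) (h.trans hcov.lt)]
        · have h' : q.1.2 < z.1.2 := by
            rcases lt_or_gt_of_ne hz3 with h5 | h5
            · exact absurd h5 (hcov.2 h)
            · exact h5
          rw [runl_pc_gt φ c x y Lo l0 z p hz1 h,
            runl_pc_gt φ c x y Lo l0 z q (hz1.trans h11) h']
      · rw [runl_pc_ne φ c x y Lo l0 z p hz1,
          runl_pc_ne φ c x y Lo l0 z q (fun h => hz1 (h.trans h11.symm)), h11]

/-- PROOF. From `suc_infl`: a run in `infl` of elements of type `t` stays in one copy. -/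
theorem run_infl (φ : G) (c : Col ℕ) (l x y : ℕ) (hxy : x ≠ y) (ht : tp φ c x = tp φ c y)
    (hl : c x y l = true) (hl' : c y x l = false) (Lo : Type) [LinearOrder Lo] [NoMinOrder Lo]
    [NoMaxOrder Lo] (l0 : Lo) (k : InfT φ c (tp φ c x) Lo l0) (hk : tp φ c k.1.1 = tp φ c x)
    (n : ℕ) :
    Run φ l (infl φ c (tp φ c x) Lo l0 (c x y) (c y x)) k n ↔ RunO Lo n := by
  have hL := infl_lift φ c x y hxy ht Lo l0
  constructor
  · rintro ⟨f, hf0, hs, hfirst, hlast⟩
    have htp : ∀ i : Fin (n + 1), tp φ c (f i).1.1 = tp φ c x := by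
      intro i
      induction i using Fin.induction with
      | zero =>
        rw [lift_tp hL, lift_tp hL] at hf0
        exact hf0.trans hk
      | succ i ih =>
        have h1 := (hs i).2.1
        rw [lift_tp hL, lift_tp hL] at h1
        exact h1.symm.trans ih
    refine ⟨fun i => (f i).1.2, ?_, ?_, ?_⟩
    · intro i
      exact ((suc_infl φ c l x y hxy ht hl hl' Lo l0 _ _ (htp _) (htp _)).1 (hs i)).2
    · intro z hz
      exact hfirst ⟨((f 0).1.1, z), Or.inl (htp 0)⟩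
        ((suc_infl φ c l x y hxy ht hl hl' Lo l0 ⟨((f 0).1.1, z), Or.inl (htp 0)⟩ (f 0) (htp 0)
          (htp 0)).2 ⟨rfl, hz⟩)
    · intro z hz
      exact hlast ⟨((f (Fin.last n)).1.1, z), Or.inl (htp _)⟩
        ((suc_infl φ c l x y hxy ht hl hl' Lo l0 (f (Fin.last n))
          ⟨((f (Fin.last n)).1.1, z), Or.inl (htp _)⟩ (htp _) (htp _)).2 ⟨rfl, hz⟩)
  · rintro ⟨g, hs, hfirst, hlast⟩
    refine ⟨fun i => ⟨(k.1.1, g i), Or.inl hk⟩, ?_, ?_, ?_, ?_⟩
    · rw [lift_tp hL, lift_tp hL]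
    · intro i
      exact (suc_infl φ c l x y hxy ht hl hl' Lo l0 ⟨(k.1.1, g i.castSucc), Or.inl hk⟩
        ⟨(k.1.1, g i.succ), Or.inl hk⟩ hk hk).2 ⟨rfl, hs i⟩
    · intro z hz
      have h1 := hz.2.1
      rw [lift_tp hL, lift_tp hL] at h1
      exact hfirst z.1.2
        ((suc_infl φ c l x y hxy ht hl hl' Lo l0 z ⟨(k.1.1, g 0), Or.inl hk⟩ (h1.trans hk)
          hk).1 hz).2
    · intro z hz
      have h1 := hz.2.1
      rw [lift_tp hL, lift_tp hL] at h1
      exact hlast z.1.2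
        ((suc_infl φ c l x y hxy ht hl hl' Lo l0 ⟨(k.1.1, g (Fin.last n)), Or.inl hk⟩ z hk
          (h1.symm.trans hk)).1 hz).2

end Pool.H17.TL
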