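import Pool.Agent.H17.TL.Chain
import Pool.Agent.H17.TL.RunL
import Pool.Agent.H17.TL.Meas

/-!
# The dichotomy for two-variable formulas over ordered structures
-/

set_option autoImplicit false

namespace Pool.H17.TL

open Pool.H17.TV

theorem coreH_main (φ : G) (L P : Set ℕ) (l : ℕ) (c : Col ℕ)
    (hc : c ∈ OMod φ L P) (x y : ℕ) (hxy : x ≠ y) (ht : tp φ c x = tp φ c y)
    (hl1 : c x y l = true) (hl2 : c y x l = false) (s : ℕ → Bool) :
    ∃ d ∈ OMod φ L P, ∃ k : ℕ, ∀ n, (Run φ l d k (n + 1) ↔ s n = true) := by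
  obtain ⟨Lo, hcount, hne, hlin, hmin, hmax, hrun⟩ := chain_exists {n | 1 ≤ n ∧ s (n - 1) = true}
  obtain ⟨l0⟩ := hne
  have hinf : Infinite (InfT φ c (tp φ c x) Lo l0) :=
    Infinite.of_injective (fun z : ℕ => (⟨(z, l0), Or.inr rfl⟩ : InfT φ c (tp φ c x) Lo l0))
      (fun z z' h => congrArg (fun p : InfT φ c (tp φ c x) Lo l0 => p.1.1) h)
  obtain ⟨σ⟩ := nonempty_equiv_of_countable (α := InfT φ c (tp φ c x) Lo l0) (β := ℕ)
  have hd : ∀ p q, (fun u w => infl φ c (tp φ c x) Lo l0 (c x y) (c y x) (σ.symm u) (σ.symm w))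
      (σ p) (σ q) = infl φ c (tp φ c x) Lo l0 (c x y) (c y x) p q := by
    intro p q
    show infl φ c (tp φ c x) Lo l0 (c x y) (c y x) (σ.symm (σ p)) (σ.symm (σ q)) = _
    rw [Equiv.symm_apply_apply, Equiv.symm_apply_apply]
  refine ⟨fun u w => infl φ c (tp φ c x) Lo l0 (c x y) (c y x) (σ.symm u) (σ.symm w),
    ⟨?_, ?_, ?_⟩, σ ⟨(x, l0), Or.inr rfl⟩, fun n => ?_⟩
  · exact fun u w => lift_sat (lift_of_iso φ σ hd)
      (fun p q => lift_sat (infl_lift φ c x y hxy ht Lo l0) hc.1 p q) u w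
  · intro n hn
    exact (lo_iso _ _ σ hd n).2 (infl_lo φ c x y hxy ht Lo l0 n (hc.2.1 n hn))
  · intro n hn
    exact (po_iso _ _ σ hd n).2 (infl_po φ c x y hxy ht Lo l0 n (hc.2.2 n hn))
  · rw [run_iso φ l _ _ σ hd, run_infl φ c l x y hxy ht hl1 hl2 Lo l0 _ rfl,
      hrun (n + 1) (by omega)]
    show (1 ≤ n + 1 ∧ s (n + 1 - 1) = true) ↔ _
    rw [Nat.add_sub_cancel]
    exact ⟨fun h => h.2, fun h => ⟨by omega, h⟩⟩

/-- PROOF. Let `x ≠ y` have the same type; exchanging them if necessary, `c x y l = true` and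
`c y x l = false`. For `D` a set of natural numbers take `Lo` from `chain_exists {n | 1 ≤ n ∧ n - 1 ∈ D}`
(or similar) and a bijection of the countable infinite set `InfT` with `ℕ`; the transported colouring
lies in `OMod φ L P` by `infl_lift`, `lift_sat`, `infl_po`, `infl_lo`, and the function
`n ↦ decide (Run φ l d k (n + 1))` is the characteristic function of `D` for `k` of type `tp φ c x`
(`run_infl`, `run_iso`). So uncountably many functions occur; `fam_of_unc` with `κ = ℕ`,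
`Z = ℕ → Bool`, `g d k n = decide (Run φ l d k (n + 1))`. -/
theorem fam_of_nonking (φ : G) (L P : Set ℕ) (l : ℕ) (hl : l ∈ L) (c : Col ℕ)
    (hc : c ∈ OMod φ L P) (x y : ℕ) (hxy : x ≠ y) (ht : tp φ c x = tp φ c y) :
    Fam (OMod φ L P) := by
  classical
  have hall : ∀ s : ℕ → Bool, ∃ d ∈ OMod φ L P, ∃ k : ℕ,
      ∀ n, (Run φ l d k (n + 1) ↔ s n = true) := by
    intro s
    have hLO := hc.2.1 l hl
    have hnot : ∀ u w, c u w l = true → c w u l = false := by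
      intro u w h1
      by_contra h2
      rw [Bool.not_eq_false] at h2
      have h3 := hLO.1.2 u w u h1 h2
      rw [hLO.1.1 u] at h3
      exact Bool.false_ne_true h3
    rcases hLO.2 x y hxy with h | h
    · exact coreH_main φ L P l c hc x y hxy ht h (hnot _ _ h) s
    · exact coreH_main φ L P l c hc y x hxy.symm ht.symm h (hnot _ _ h) s
  refine fam_of_unc (κ := ℕ) (Z := ℕ → Bool) (OMod φ L P) (omod_meas φ L P)
    (fun d k n => decide (Run φ l d k (n + 1))) ?_ ?_ ?_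
  · intro k
    refine measurable_pi_iff.2 fun n => measurable_to_bool ?_
    have h1 : (fun d : Col ℕ => decide (Run φ l d k (n + 1))) ⁻¹' {true} =
        {d : Col ℕ | Run φ l d k (n + 1)} := by
      ext d
      simp
    rw [h1]
    exact run_meas φ l k (n + 1)
  · rintro c' _ d _ ⟨σ, hσ⟩ k'
    refine ⟨σ.symm k', funext fun n => ?_⟩
    have h1 := run_iso φ l c' d σ hσ (σ.symm k') (n + 1)
    rw [Equiv.apply_symm_apply] at h1
    exact decide_eq_decide.2 h1
  · have hu : {z | ∃ d ∈ OMod φ L P, ∃ k : ℕ, (fun n => decide (Run φ l d k (n + 1))) = z} =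
        Set.univ := by
      rw [Set.eq_univ_iff_forall]
      intro s
      obtain ⟨d, hd, k, hk⟩ := hall s
      refine ⟨d, hd, k, funext fun n => ?_⟩
      rw [Bool.eq_iff_iff, decide_eq_true_eq]
      exact hk n
    rw [hu, Set.countable_univ_iff, not_countable_iff]
    exact (uncountable_iff_not_countable _).2 (fun h => by
      obtain ⟨f, hf⟩ := exists_surjective_nat (ℕ → Bool)
      obtain ⟨n, hn⟩ := hf (fun m => !(f m m))
      have h2 := congrFun hn n
      simp at h2)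

/-- as `types_countable` -/
theorem types_countable' (φ : G) (B : Set (Col ℕ)) (hB : MeasurableSet B) (h : ¬ Fam B) :
    {t | ∃ c ∈ B, ∃ x, tp φ c x = t}.Countable := by
  by_contra hunc
  apply h
  refine fam_of_unc (κ := ℕ) (Z := TT) B hB (fun c x => tp φ c x)
    (fun k => meas_tp φ k) ?_ hunc
  rintro c _ d _ ⟨σ, hσ⟩ k'
  refine ⟨σ.symm k', ?_⟩
  have := tp_iso φ σ hσ (σ.symm k')
  rw [Equiv.apply_symm_apply] at this
  exact this

/-- as `few_or_fam` -/
theorem few_or_fam' (φ : G) (B : Set (Col ℕ)) (hB : MeasurableSet B) (τ : ℕ → TT)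
    (hτ : ∀ c ∈ B, ∀ x, ∃ i, tp φ c x = τ i)
    (h1 : ∀ c ∈ B, ¬ Flex1 φ c) (h2 : ∀ c ∈ B, ¬ Flex2 φ c) : Few B ∨ Fam B := by
  classical
  by_cases hr : ∀ r : ℕ, {z | ∃ c ∈ B, ∃ e : Fin r → ℕ, J φ τ c e = z}.Countable
  · left
    let T : Set (Σ r : ℕ, (JI r → Bool)) :=
      {p | ∃ c ∈ B, ∃ e : Fin p.1 → ℕ, Rep φ c e ∧ J φ τ c e = p.2}
    have hT : T.Countable := by
      have hU : (⋃ r : ℕ, (fun z : JI r → Bool => (⟨r, z⟩ : Σ r : ℕ, (JI r → Bool))) ''
          {z | ∃ c ∈ B, ∃ e : Fin r → ℕ, J φ τ c e = z}).Countable :=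
        Set.countable_iUnion fun r => (hr r).image _
      refine hU.mono ?_
      rintro ⟨r, z⟩ ⟨c, hc, e, _, hz⟩
      exact Set.mem_iUnion.2 ⟨r, z, ⟨c, hc, e, hz⟩, rfl⟩
    choose F hF using fun p : T => p.2
    have : Countable T := hT.to_subtype
    refine ⟨Set.range F, Set.countable_range F, ?_⟩
    intro c hc
    obtain ⟨r, e, he⟩ := exists_rep φ c (h2 c hc)
    let p : T := ⟨⟨r, J φ τ c e⟩, c, hc, e, he, rfl⟩
    obtain ⟨hd, e', he', hJ⟩ := hF p
    exact ⟨F p, ⟨p, rfl⟩, iso_of_J φ τ c (F p) e e' (hτ c hc) (hτ _ hd) (h1 c hc) (h1 _ hd) he he'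
      hJ.symm⟩
  · right
    push Not at hr
    obtain ⟨r, hr⟩ := hr
    refine fam_of_unc (κ := Fin r → ℕ) B hB (fun c e => J φ τ c e)
      (fun e => J_meas φ τ e) ?_ hr
    rintro c _ d _ ⟨σ, hσ⟩ e'
    refine ⟨fun l => σ.symm (e' l), ?_⟩
    have h := J_iso φ τ c d (fun l => σ.symm (e' l)) σ hσ
    simpa using h

theorem core_ord (φ : G) (L P : Set ℕ) (hL : L.Nonempty) :
    Few (OMod φ L P) ∨ Fam (OMod φ L P) := by
  classical
  obtain ⟨l, hl⟩ := hL
  by_cases hF : Fam (OMod φ L P)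
  · exact Or.inr hF
  have hking : ∀ c ∈ OMod φ L P, ∀ x, King φ c x := by
    intro c hc x y hxy
    by_contra hne
    exact hF (fam_of_nonking φ L P l hl c hc x y (fun h => hne h.symm) hxy.symm)
  have hcount := types_countable' φ (OMod φ L P) (omod_meas φ L P) hF
  have h1 : ∀ c ∈ OMod φ L P, ¬ Flex1 φ c := by
    rintro c hc ⟨x, y, x', y', hx, -⟩
    exact hx (hking c hc x)
  have h2 : ∀ c ∈ OMod φ L P, ¬ Flex2 φ c := by
    rintro c hc ⟨e, he, -⟩
    exact he 0 (hking c hc _)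
  by_cases hne : (OMod φ L P).Nonempty
  · obtain ⟨c0, hc0⟩ := hne
    obtain ⟨τ, hτ⟩ := hcount.exists_eq_range ⟨tp φ c0 0, c0, hc0, 0, rfl⟩
    refine few_or_fam' φ (OMod φ L P) (omod_meas φ L P) τ ?_ h1 h2
    intro c hc x
    have hm : tp φ c x ∈ {t | ∃ c ∈ OMod φ L P, ∃ x, tp φ c x = t} := ⟨c, hc, x, rfl⟩
    rw [hτ] at hm
    obtain ⟨i, hi⟩ := hm
    exact ⟨i, hi.symm⟩
  · left
    exact ⟨∅, Set.countable_empty, fun c hc => absurd ⟨c, hc⟩ hne⟩

end Pool.H17.TL
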