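import Pool.Agent.H17.TV.FinC

/-!
# Two-variable formulas over ordered structures : definitions
-/

set_option autoImplicit false

namespace Pool.H17.TL

open Pool.H17.TV

/-- the `n`-th relation is a strict partial order -/
def IsPO {β : Type} (c : Col β) (n : ℕ) : Prop :=
  (∀ x, c x x n = false) ∧ ∀ x y z, c x y n = true → c y z n = true → c x z n = true

/-- the `n`-th relation is a strict linear order -/
def IsLO {β : Type} (c : Col β) (n : ℕ) : Prop :=
  IsPO c n ∧ ∀ x y, x ≠ y → c x y n = true ∨ c y x n = true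

/-- models of `φ` in which the relations in `L` are linear orders, those in `P` partial orders -/
def OMod (φ : G) (L P : Set ℕ) : Set (Col ℕ) :=
  {c | c ∈ GMod φ ∧ (∀ n ∈ L, IsLO c n) ∧ ∀ n ∈ P, IsPO c n}

/-- every element of type `t` is replaced by a copy of the linear order `Lo` -/
abbrev InfT (φ : G) (c : Col ℕ) (t : TT) (Lo : Type) (l0 : Lo) : Type :=
  {p : ℕ × Lo // tp φ c p.1 = t ∨ p.2 = l0}

/-- inside a copy the pair colours are `α` (upwards) and `β` (downwards) -/
noncomputable def infl (φ : G) (c : Col ℕ) (t : TT) (Lo : Type) [LinearOrder Lo] (l0 : Lo)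
    (α β : ℕ → Bool) : Col (InfT φ c t Lo l0) := fun p q n =>
  if p.1.1 = q.1.1 ∧ p.1.2 ≠ q.1.2 then (if p.1.2 < q.1.2 then α n else β n)
  else c p.1.1 q.1.1 n

/-- `q` is the successor of `p`: same type, `p < q` in the order `l`, and no other element
distinguishes them -/
def Suc {β : Type} (φ : G) (l : ℕ) (c : Col β) (p q : β) : Prop :=
  p ≠ q ∧ tp φ c p = tp φ c q ∧ c p q l = true ∧ ∀ z, z ≠ p → z ≠ q → pc c z p = pc c z q

/-- there is a maximal run of `n + 1` successive elements of the type of `k` -/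
def Run {β : Type} (φ : G) (l : ℕ) (c : Col β) (k : β) (n : ℕ) : Prop :=
  ∃ f : Fin (n + 1) → β, tp φ c (f 0) = tp φ c k ∧
    (∀ i : Fin n, Suc φ l c (f i.castSucc) (f i.succ)) ∧
    (∀ z, ¬ Suc φ l c z (f 0)) ∧ ∀ z, ¬ Suc φ l c (f (Fin.last n)) z

/-- maximal runs of successive elements in a linear order -/
def RunO (Lo : Type) [LinearOrder Lo] (n : ℕ) : Prop :=
  ∃ f : Fin (n + 1) → Lo, (∀ i : Fin n, f i.castSucc ⋖ f i.succ) ∧
    (∀ z, ¬ z ⋖ f 0) ∧ ∀ z, ¬ f (Fin.last n) ⋖ z

end Pool.H17.TL
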