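import Pool.Agent.H17.TL.Defs

/-!
# Inflation of a type by a chain
-/

set_option autoImplicit false

namespace Pool.H17.TL

open Pool.H17.TV

/-- `infl` as a function to sequences -/
theorem infl_eq (φ : G) (c : Col ℕ) (t : TT) (Lo : Type) [LinearOrder Lo] (l0 : Lo)
    (α β : ℕ → Bool) (p q : InfT φ c t Lo l0) :
    infl φ c t Lo l0 α β p q =
      if p.1.1 = q.1.1 ∧ p.1.2 ≠ q.1.2 then (if p.1.2 < q.1.2 then α else β)
      else c p.1.1 q.1.1 := by
  funext n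
  unfold infl
  split_ifs <;> rfl

theorem inflH_up (φ : G) (c : Col ℕ) (t : TT) (Lo : Type) [LinearOrder Lo] (l0 : Lo)
    (α β : ℕ → Bool) {p q : InfT φ c t Lo l0} (h : p.1.1 = q.1.1) (h' : p.1.2 < q.1.2) :
    infl φ c t Lo l0 α β p q = α := by
  rw [infl_eq, if_pos ⟨h, ne_of_lt h'⟩, if_pos h']

theorem inflH_dn (φ : G) (c : Col ℕ) (t : TT) (Lo : Type) [LinearOrder Lo] (l0 : Lo)
    (α β : ℕ → Bool) {p q : InfT φ c t Lo l0} (h : p.1.1 = q.1.1) (h' : q.1.2 < p.1.2) :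
    infl φ c t Lo l0 α β p q = β := by
  rw [infl_eq, if_pos ⟨h, ne_of_gt h'⟩, if_neg (not_lt_of_gt h')]

theorem inflH_out (φ : G) (c : Col ℕ) (t : TT) (Lo : Type) [LinearOrder Lo] (l0 : Lo)
    (α β : ℕ → Bool) {p q : InfT φ c t Lo l0} (h : p.1.1 ≠ q.1.1) :
    infl φ c t Lo l0 α β p q = c p.1.1 q.1.1 := by
  rw [infl_eq, if_neg (fun h' => h h'.1)]

theorem inflH_same {φ : G} {c : Col ℕ} {t : TT} {Lo : Type} [LinearOrder Lo] {l0 : Lo}
    {p q : InfT φ c t Lo l0} (h : p.1.1 = q.1.1) (hne : p ≠ q) :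
    p.1.2 ≠ q.1.2 ∧ tp φ c p.1.1 = t := by
  have h2 : p.1.2 ≠ q.1.2 := fun he => hne (Subtype.ext (Prod.ext h he))
  refine ⟨h2, ?_⟩
  rcases p.2 with hp | hp
  · exact hp
  · rcases q.2 with hq | hq
    · rw [h]
      exact hq
    · exact absurd (hp.trans hq.symm) h2

/-- PROOF. (1) clear. (2) for `p ≠ q` in different copies take the elements themselves; in the same
copy (then the first coordinate has type `t`) take `x, y` or `y, x`. (3) for `z ≠ p.1.1` take
`⟨(z, l0), _⟩`. -/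
theorem infl_lift (φ : G) (c : Col ℕ) (x y : ℕ) (hxy : x ≠ y) (ht : tp φ c x = tp φ c y) (Lo : Type)
    [LinearOrder Lo] (l0 : Lo) :
    Lift φ c (infl φ c (tp φ c x) Lo l0 (c x y) (c y x)) (fun p => p.1.1) := by
  refine ⟨fun u => ?_, fun u w huw => ?_, fun u z hz => ?_⟩
  · rw [infl_eq, if_neg]
    rintro ⟨-, h⟩
    exact h rfl
  · by_cases h1 : u.1.1 = w.1.1
    · obtain ⟨h2, h3⟩ := inflH_same h1 huw
      have h4 : tp φ c w.1.1 = tp φ c x := by rw [← h1]; exact h3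
      rcases lt_or_gt_of_ne h2 with h5 | h5
      · refine ⟨x, y, hxy, ?_, h3.symm, ht.symm.trans h4.symm⟩
        show (infl φ c (tp φ c x) Lo l0 (c x y) (c y x) u w,
          infl φ c (tp φ c x) Lo l0 (c x y) (c y x) w u) = (c x y, c y x)
        rw [inflH_up φ c _ Lo l0 _ _ h1 h5, inflH_dn φ c _ Lo l0 _ _ h1.symm h5]
      · refine ⟨y, x, hxy.symm, ?_, ht.symm.trans h3.symm, h4.symm⟩
        show (infl φ c (tp φ c x) Lo l0 (c x y) (c y x) u w,
          infl φ c (tp φ c x) Lo l0 (c x y) (c y x) w u) = (c y x, c x y)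
        rw [inflH_dn φ c _ Lo l0 _ _ h1 h5, inflH_up φ c _ Lo l0 _ _ h1.symm h5]
    · refine ⟨u.1.1, w.1.1, h1, ?_, rfl, rfl⟩
      show (infl φ c (tp φ c x) Lo l0 (c x y) (c y x) u w,
          infl φ c (tp φ c x) Lo l0 (c x y) (c y x) w u) = (c u.1.1 w.1.1, c w.1.1 u.1.1)
      rw [infl_eq, infl_eq, if_neg (fun h => h1 h.1), if_neg (fun h => h1 h.1.symm)]
  · refine ⟨⟨(z, l0), Or.inr rfl⟩, ?_, ?_, rfl⟩
    · intro h
      apply hz
      rw [← h]
    · have h1 : u.1.1 ≠ z := fun h => hz h.symm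
      show (infl φ c (tp φ c x) Lo l0 (c x y) (c y x) u ⟨(z, l0), Or.inr rfl⟩,
          infl φ c (tp φ c x) Lo l0 (c x y) (c y x) ⟨(z, l0), Or.inr rfl⟩ u) =
          (c u.1.1 z, c z u.1.1)
      rw [infl_eq, infl_eq, if_neg (fun h => h1 h.1), if_neg (fun h => h1 h.1.symm)]

/-- PROOF. Not both `c x y n` and `c y x n` (irreflexive, transitive). Transitivity for `p, q, r`:
same copy: orders `<`, `>` or empty; two in one copy and the third outside: colours do not depend on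
the copy, and `c u w n`, `c w u n` are not both true; different copies: `c`. -/
theorem infl_po (φ : G) (c : Col ℕ) (x y : ℕ) (hxy : x ≠ y) (ht : tp φ c x = tp φ c y) (Lo : Type)
    [LinearOrder Lo] (l0 : Lo) (n : ℕ) (h : IsPO c n) :
    IsPO (infl φ c (tp φ c x) Lo l0 (c x y) (c y x)) n := by
  have hxy2 : ¬ (c x y n = true ∧ c y x n = true) := by
    rintro ⟨h1, h2⟩
    have h3 := h.2 x y x h1 h2
    rw [h.1 x] at h3
    exact Bool.false_ne_true h3
  have hne : ∀ u w, c u w n = true → u ≠ w := by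
    rintro u w h1 rfl
    rw [h.1 u] at h1
    exact Bool.false_ne_true h1
  refine ⟨fun p => ?_, fun p q r hpq hqr => ?_⟩
  · rw [infl_eq, if_neg (fun h => h.2 rfl)]
    exact h.1 _
  · rw [infl_eq] at hpq hqr ⊢
    by_cases hA : p.1.1 = q.1.1 ∧ p.1.2 ≠ q.1.2
    · rw [if_pos hA] at hpq
      by_cases hB : q.1.1 = r.1.1 ∧ q.1.2 ≠ r.1.2
      · rw [if_pos hB] at hqr
        have h11 : p.1.1 = r.1.1 := hA.1.trans hB.1
        by_cases h1 : p.1.2 < q.1.2
        · rw [if_pos h1] at hpq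
          by_cases h2 : q.1.2 < r.1.2
          · have h3 : p.1.2 < r.1.2 := h1.trans h2
            rw [if_pos ⟨h11, h3.ne⟩, if_pos h3]
            exact hpq
          · rw [if_neg h2] at hqr
            exact absurd ⟨hpq, hqr⟩ hxy2
        · rw [if_neg h1] at hpq
          by_cases h2 : q.1.2 < r.1.2
          · rw [if_pos h2] at hqr
            exact absurd ⟨hqr, hpq⟩ hxy2
          · have h4 : q.1.2 < p.1.2 := lt_of_le_of_ne (not_lt.1 h1) hA.2.symm
            have h5 : r.1.2 < q.1.2 := lt_of_le_of_ne (not_lt.1 h2) hB.2.symm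
            have h3 : r.1.2 < p.1.2 := h5.trans h4
            rw [if_pos ⟨h11, h3.ne'⟩, if_neg (not_lt_of_gt h3)]
            exact hpq
      · rw [if_neg hB] at hqr
        have h1 : q.1.1 ≠ r.1.1 := hne _ _ hqr
        rw [if_neg (fun h => h1 (hA.1.symm.trans h.1)), hA.1]
        exact hqr
    · rw [if_neg hA] at hpq
      have h1 : p.1.1 ≠ q.1.1 := hne _ _ hpq
      by_cases hB : q.1.1 = r.1.1 ∧ q.1.2 ≠ r.1.2
      · rw [if_neg (fun h => h1 (h.1.trans hB.1.symm)), ← hB.1]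
        exact hpq
      · rw [if_neg hB] at hqr
        have h2 := h.2 _ _ _ hpq hqr
        rw [if_neg (fun h => hne _ _ h2 h.1)]
        exact h2

theorem infl_lo (φ : G) (c : Col ℕ) (x y : ℕ) (hxy : x ≠ y) (ht : tp φ c x = tp φ c y) (Lo : Type)
    [LinearOrder Lo] (l0 : Lo) (n : ℕ) (h : IsLO c n) :
    IsLO (infl φ c (tp φ c x) Lo l0 (c x y) (c y x)) n := by
  refine ⟨infl_po φ c x y hxy ht Lo l0 n h.1, fun p q hpq => ?_⟩
  by_cases h1 : p.1.1 = q.1.1
  · obtain ⟨h2, -⟩ := inflH_same h1 hpq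
    rcases lt_or_gt_of_ne h2 with h3 | h3
    · rw [inflH_up φ c _ Lo l0 _ _ h1 h3, inflH_dn φ c _ Lo l0 _ _ h1.symm h3]
      exact h.2 x y hxy
    · rw [inflH_dn φ c _ Lo l0 _ _ h1 h3, inflH_up φ c _ Lo l0 _ _ h1.symm h3]
      exact (h.2 x y hxy).symm
  · rw [inflH_out φ c _ Lo l0 _ _ h1, inflH_out φ c _ Lo l0 _ _ (fun h => h1 h.symm)]
    exact h.2 _ _ h1

end Pool.H17.TL
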